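import Mathlib
import Pool.Agent.W543.GE.Stm

/-!
# Good endomorphisms of free algebras: linearization
-/

set_option autoImplicit false

universe u

namespace Pool.Agent.W371.GE

open Pool.Agent.W543.GE

section

variable {C : Type u} [Ring C] {g : ℕ}

/-- the algebra -/
abbrev PP (C : Type u) [Ring C] (g : ℕ) : Type u := MonoidAlgebra C (FreeMonoid (Fin g))

theorem cs_self (m : FreeMonoid (Fin g)) (r : C) :
    (MonoidAlgebra.single m r : PP C g).coeff m = r := by
  rw [MonoidAlgebra.coeff_single, Finsupp.single_eq_same]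

theorem cs_ne {m m' : FreeMonoid (Fin g)} (r : C) (h : m ≠ m') :
    (MonoidAlgebra.single m r : PP C g).coeff m' = 0 := by
  rw [MonoidAlgebra.coeff_single, Finsupp.single_eq_of_ne (Ne.symm h)]

theorem ofList_inj {w w' : List (Fin g)} (h : FreeMonoid.ofList w = FreeMonoid.ofList w') :
    w = w' := by
  simpa using congrArg FreeMonoid.toList h

theorem coeff_nil (j : Fin g) (r : C) (f : PP C g) :
    (MonoidAlgebra.single (FreeMonoid.of j) r * f).coeff (FreeMonoid.ofList []) = 0 := by
  apply MonoidAlgebra.coeff_single_mul_of_forall_mul_ne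
  intro d hd
  have := congrArg FreeMonoid.toList hd
  rw [FreeMonoid.toList_mul] at this
  simp at this

theorem coeff_cons (j l : Fin g) (r : C) (f : PP C g) (w : List (Fin g)) :
    (MonoidAlgebra.single (FreeMonoid.of j) r * f).coeff (FreeMonoid.ofList (l :: w)) =
      if l = j then r * f.coeff (FreeMonoid.ofList w) else 0 := by
  by_cases h : l = j
  · subst h
    rw [if_pos rfl]
    apply MonoidAlgebra.coeff_single_mul_eq_mul_coeff
    intro m' _
    rw [FreeMonoid.ofList_cons, mul_right_inj]
  · rw [if_neg h]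
    apply MonoidAlgebra.coeff_single_mul_of_forall_mul_ne
    intro d hd
    have := congrArg FreeMonoid.toList hd
    rw [FreeMonoid.toList_mul] at this
    simp at this
    exact h this.1.symm

/-- the linear matrix -/
noncomputable def NN {S : Type} (B : Fin g → Matrix S S C) : Matrix S S (PP C g) :=
  fun a b => ∑ j, MonoidAlgebra.single (FreeMonoid.of j) (B j a b)

theorem NN_pow {S : Type} [Fintype S] [DecidableEq S] (B : Fin g → Matrix S S C) :
    ∀ (k : ℕ) (w : List (Fin g)) (a b : S), ((NN B ^ k) a b).coeff (FreeMonoid.ofList w) =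
      if w.length = k then (w.map B).prod a b else 0 := by
  intro k
  induction k with
  | zero =>
    intro w a b
    rw [pow_zero]
    cases w with
    | nil =>
      rw [if_pos (show ([] : List (Fin g)).length = 0 from rfl), List.map_nil, List.prod_nil,
        Matrix.one_apply, Matrix.one_apply]
      by_cases h : a = b
      · rw [if_pos h, if_pos h]
        exact MonoidAlgebra.coeff_one_one
      · rw [if_neg h, if_neg h]
        rfl
    | cons l w =>
      rw [if_neg (by simp), Matrix.one_apply]
      by_cases h : a = b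
      · rw [if_pos h, MonoidAlgebra.one_def, cs_ne]
        intro h1
        have := ofList_inj (w := []) h1
        simp at this
      · rw [if_neg h]
        rfl
  | succ k ih =>
    intro w a b
    rw [pow_succ', Matrix.mul_apply]
    have h1 : ∀ c : S, (NN B a c * (NN B ^ k) c b).coeff (FreeMonoid.ofList w) =
        ∑ j, (MonoidAlgebra.single (FreeMonoid.of j) (B j a c) * (NN B ^ k) c b).coeff
          (FreeMonoid.ofList w) := by
      intro c
      unfold NN
      rw [Finset.sum_mul, MonoidAlgebra.coeff_sum, Finsupp.finsetSum_apply]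
    rw [MonoidAlgebra.coeff_sum, Finsupp.finsetSum_apply, Finset.sum_congr rfl fun c _ => h1 c]
    cases w with
    | nil =>
      rw [if_neg (by simp)]
      refine Finset.sum_eq_zero fun c _ => Finset.sum_eq_zero fun j _ => ?_
      exact coeff_nil j _ _
    | cons l w =>
      have h2 : ∀ c : S, ∑ j, (MonoidAlgebra.single (FreeMonoid.of j) (B j a c) *
          (NN B ^ k) c b).coeff (FreeMonoid.ofList (l :: w)) =
          B l a c * (if w.length = k then (w.map B).prod c b else 0) := by
        intro c
        rw [Finset.sum_eq_single l]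
        · rw [coeff_cons, if_pos rfl, ih]
        · intro j _ hj
          rw [coeff_cons, if_neg (Ne.symm hj)]
        · intro h
          exact absurd (Finset.mem_univ _) h
      rw [Finset.sum_congr rfl fun c _ => h2 c, List.length_cons]
      by_cases hk : w.length = k
      · rw [if_pos (by rw [hk])]
        simp only [if_pos hk]
        rw [List.map_cons, List.prod_cons, Matrix.mul_apply]
      · rw [if_neg (by omega)]
        simp only [if_neg hk, mul_zero, Finset.sum_const_zero]

theorem NN_unit {S : Type} [Fintype S] [DecidableEq S] (B : Fin g → Matrix S S C)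
    (h : ∃ k : ℕ, ∀ w : List (Fin g), k ≤ w.length → (w.map B).prod = 0) :
    IsUnit (1 - NN B) := by
  obtain ⟨k, hk⟩ := h
  apply IsNilpotent.isUnit_one_sub
  refine ⟨k, ?_⟩
  funext a b
  apply MonoidAlgebra.ext
  apply Finsupp.ext
  intro m
  have := NN_pow B k (FreeMonoid.toList m) a b
  rw [FreeMonoid.ofList_toList] at this
  rw [this]
  by_cases h1 : (FreeMonoid.toList m).length = k
  · rw [if_pos h1, hk _ h1.ge]
    rfl
  · rw [if_neg h1]
    rfl

/-- words of length less than `M` -/
abbrev TT (g M : ℕ) : Type := {l : List (Fin g) // l.length < M}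

noncomputable instance (g M : ℕ) : Fintype (TT g M) :=
  (List.finite_length_lt (Fin g) M).fintype

variable {n : ℕ}

/-- the companion matrices -/
noncomputable def BB (M : ℕ) (J : Matrix (Fin n) (Fin n) (PP C g)) (j : Fin g) :
    Matrix (Fin n × TT g M) (Fin n × TT g M) C := fun a b =>
  match a.2.1 with
  | [] => -((J a.1 b.1).coeff (FreeMonoid.ofList (j :: b.2.1)))
  | l :: w => if l = j ∧ a.1 = b.1 ∧ w = b.2.1 then 1 else 0

/-- decomposition according to the first letter -/
theorem dec {M : ℕ} (f : PP C g) (hf : ∀ w : List (Fin g), M < w.length →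
    f.coeff (FreeMonoid.ofList w) = 0) :
    f = MonoidAlgebra.single 1 (f.coeff 1) + ∑ j : Fin g, ∑ v : TT g M,
      MonoidAlgebra.single (FreeMonoid.ofList (j :: v.1))
        (f.coeff (FreeMonoid.ofList (j :: v.1))) := by
  apply MonoidAlgebra.ext
  apply Finsupp.ext
  intro m
  obtain ⟨w, rfl⟩ : ∃ w : List (Fin g), FreeMonoid.ofList w = m :=
    ⟨FreeMonoid.toList m, FreeMonoid.ofList_toList m⟩
  rw [MonoidAlgebra.coeff_add, Finsupp.add_apply, MonoidAlgebra.coeff_sum,
    Finsupp.finsetSum_apply]
  have h1 : ∀ j : Fin g, (∑ v : TT g M, MonoidAlgebra.single (FreeMonoid.ofList (j :: v.1))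
      (f.coeff (FreeMonoid.ofList (j :: v.1)))).coeff (FreeMonoid.ofList w) =
      ∑ v : TT g M, if j :: v.1 = w then f.coeff (FreeMonoid.ofList w) else 0 := by
    intro j
    rw [MonoidAlgebra.coeff_sum, Finsupp.finsetSum_apply]
    refine Finset.sum_congr rfl fun v _ => ?_
    by_cases h : j :: v.1 = w
    · rw [h, cs_self, if_pos rfl]
    · rw [if_neg h, cs_ne]
      intro h2
      exact h (ofList_inj h2)
  rw [Finset.sum_congr rfl fun j _ => h1 j]
  cases w with
  | nil =>
    have e1 : (1 : FreeMonoid (Fin g)) = FreeMonoid.ofList [] := rfl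
    rw [e1, cs_self]
    symm
    rw [add_eq_left]
    refine Finset.sum_eq_zero fun j _ => Finset.sum_eq_zero fun v _ => ?_
    rw [if_neg (by simp)]
  | cons l w =>
    rw [cs_ne, zero_add]
    · by_cases hw : w.length < M
      · rw [Finset.sum_eq_single l]
        · rw [Finset.sum_eq_single (⟨w, hw⟩ : TT g M)]
          · rw [if_pos rfl]
          · intro v _ hv
            rw [if_neg]
            intro h
            apply hv
            apply Subtype.ext
            exact (List.cons.inj h).2
          · intro h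
            exact absurd (Finset.mem_univ _) h
        · intro j _ hj
          refine Finset.sum_eq_zero fun v _ => ?_
          rw [if_neg]
          intro h
          exact hj (List.cons.inj h).1
        · intro h
          exact absurd (Finset.mem_univ _) h
      · have h0 : f.coeff (FreeMonoid.ofList (l :: w)) = 0 := by
          apply hf
          rw [List.length_cons]
          omega
        rw [h0]
        symm
        refine Finset.sum_eq_zero fun j _ => Finset.sum_eq_zero fun v _ => ?_
        split_ifs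
        · rfl
        · rfl
    · intro h
      have := ofList_inj (w := []) h
      simp at this

variable {V : Type u} [AddCommGroup V]

theorem E_add (E : PP C g →+* AddMonoid.End V) (a b : PP C g) (v : V) :
    E (a + b) v = E a v + E b v := by
  rw [map_add]
  rfl

theorem E_sum {ι : Type} (E : PP C g →+* AddMonoid.End V) (s : Finset ι) (f : ι → PP C g)
    (v : V) : E (∑ i ∈ s, f i) v = ∑ i ∈ s, E (f i) v := by
  classical
  induction s using Finset.induction_on with
  | empty =>
    rw [Finset.sum_empty, Finset.sum_empty, map_zero]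
    rfl
  | insert a s ha ih => rw [Finset.sum_insert ha, Finset.sum_insert ha, E_add, ih]

theorem row_cons {M : ℕ} (J : Matrix (Fin n) (Fin n) (PP C g)) (E : PP C g →+* AddMonoid.End V)
    (s : Fin n × TT g M → V) (i : Fin n) (l : Fin g) (w : List (Fin g))
    (h : (l :: w).length < M) (h' : w.length < M) :
    ∑ j, ∑ b, E (MonoidAlgebra.single (FreeMonoid.of j) (BB M J j (i, ⟨l :: w, h⟩) b)) (s b) =
      E (MonoidAlgebra.single (FreeMonoid.of l) 1) (s (i, ⟨w, h'⟩)) := by
  have hB : ∀ (j : Fin g) (b : Fin n × TT g M), BB M J j (i, ⟨l :: w, h⟩) b =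
      if l = j ∧ i = b.1 ∧ w = b.2.1 then 1 else 0 := fun j b => rfl
  have hz : ∀ (m : FreeMonoid (Fin g)) (v : V), E (MonoidAlgebra.single m (0 : C)) v = 0 := by
    intro m v
    rw [MonoidAlgebra.single_zero, map_zero]
    rfl
  rw [Finset.sum_eq_single l]
  · rw [Finset.sum_eq_single ((i, ⟨w, h'⟩) : Fin n × TT g M)]
    · rw [hB, if_pos ⟨rfl, rfl, rfl⟩]
    · rintro ⟨i', v⟩ _ hv
      rw [hB, if_neg, hz]
      rintro ⟨_, h1, h2⟩
      apply hv
      simp only at h1 h2
      subst h1
      congr 1
      exact Subtype.ext h2.symm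
    · intro h1
      exact absurd (Finset.mem_univ _) h1
  · intro j _ hj
    refine Finset.sum_eq_zero fun b _ => ?_
    rw [hB, if_neg, hz]
    rintro ⟨h1, _⟩
    exact hj h1.symm
  · intro h1
    exact absurd (Finset.mem_univ _) h1

theorem row_nil {M : ℕ} (hM : 0 < M) (J : Matrix (Fin n) (Fin n) (PP C g))
    (hJ1 : ∀ i i', (J i i').coeff 1 = if i = i' then 1 else 0)
    (hJM : ∀ i i', ∀ w : List (Fin g), M < w.length → (J i i').coeff (FreeMonoid.ofList w) = 0)
    (E : PP C g →+* AddMonoid.End V) (s : Fin n × TT g M → V)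
    (hs : ∀ i u, s (i, u) = E (MonoidAlgebra.single (FreeMonoid.ofList u.1) 1)
      (s (i, ⟨[], hM⟩))) (i : Fin n) :
    s (i, ⟨[], hM⟩) - ∑ j, ∑ b,
      E (MonoidAlgebra.single (FreeMonoid.of j) (BB M J j (i, ⟨[], hM⟩) b)) (s b) =
      ∑ i', E (J i i') (s (i', ⟨[], hM⟩)) := by
  have hB : ∀ (j : Fin g) (b : Fin n × TT g M), BB M J j (i, ⟨[], hM⟩) b =
      -((J i b.1).coeff (FreeMonoid.ofList (j :: b.2.1))) := fun j b => rfl
  have h1 : ∀ i', E (J i i') (s (i', ⟨[], hM⟩)) =
      (if i = i' then s (i', ⟨[], hM⟩) else 0) + ∑ j : Fin g, ∑ v : TT g M,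
        E (MonoidAlgebra.single (FreeMonoid.ofList (j :: v.1))
          ((J i i').coeff (FreeMonoid.ofList (j :: v.1)))) (s (i', ⟨[], hM⟩)) := by
    intro i'
    conv_lhs => rw [dec (J i i') (hJM i i')]
    rw [E_add, hJ1, E_sum]
    congr 1
    · by_cases h : i = i'
      · rw [if_pos h, if_pos h, ← MonoidAlgebra.one_def, map_one]
        rfl
      · rw [if_neg h, if_neg h, MonoidAlgebra.single_zero, map_zero]
        rfl
    · refine Finset.sum_congr rfl fun j _ => ?_
      rw [E_sum]
  rw [Finset.sum_congr rfl fun i' _ => h1 i', Finset.sum_add_distrib, Finset.sum_ite_eq,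
    if_pos (Finset.mem_univ _), sub_eq_add_neg]
  congr 1
  conv_rhs => rw [Finset.sum_comm]
  rw [← Finset.sum_neg_distrib]
  refine Finset.sum_congr rfl fun j _ => ?_
  rw [Fintype.sum_prod_type, ← Finset.sum_neg_distrib]
  refine Finset.sum_congr rfl fun i' _ => ?_
  rw [← Finset.sum_neg_distrib]
  refine Finset.sum_congr rfl fun v _ => ?_
  rw [hB, hs i' v]
  simp only
  have h2 : E (MonoidAlgebra.single (FreeMonoid.of j)
      (-(J i i').coeff (FreeMonoid.ofList (j :: v.1))))
      (E (MonoidAlgebra.single (FreeMonoid.ofList v.1) 1) (s (i', ⟨[], hM⟩))) =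
      E (MonoidAlgebra.single (FreeMonoid.of j)
      (-(J i i').coeff (FreeMonoid.ofList (j :: v.1))) *
      MonoidAlgebra.single (FreeMonoid.ofList v.1) 1) (s (i', ⟨[], hM⟩)) := by
    rw [map_mul]
    rfl
  rw [h2, MonoidAlgebra.single_mul_single, mul_one, ← FreeMonoid.ofList_cons,
    MonoidAlgebra.single_neg, map_neg]
  change -(-(E _ _)) = _
  rw [neg_neg]

theorem main {M : ℕ} (hM : 0 < M) (J : Matrix (Fin n) (Fin n) (PP C g))
    (hJ1 : ∀ i i', (J i i').coeff 1 = if i = i' then 1 else 0)
    (hJM : ∀ i i', ∀ w : List (Fin g), M < w.length → (J i i').coeff (FreeMonoid.ofList w) = 0)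
    (E : PP C g →+* AddMonoid.End V) (s : Fin n × TT g M → V) (t : Fin n → V) :
    (∀ a, s a - ∑ j, ∑ b, E (MonoidAlgebra.single (FreeMonoid.of j) (BB M J j a b)) (s b) =
      if a.2 = ⟨[], hM⟩ then t a.1 else 0) ↔
    ((∀ i u, s (i, u) = E (MonoidAlgebra.single (FreeMonoid.ofList u.1) 1)
      (s (i, ⟨[], hM⟩))) ∧ ∀ i, ∑ i', E (J i i') (s (i', ⟨[], hM⟩)) = t i) := by
  have hone : ∀ v : V, E (MonoidAlgebra.single (FreeMonoid.ofList []) 1) v = v := by
    intro v
    have : (MonoidAlgebra.single (FreeMonoid.ofList []) (1 : C) : PP C g) = 1 := rfl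
    rw [this, map_one]
    rfl
  have hcons : ∀ (l : Fin g) (w : List (Fin g)) (v : V),
      E (MonoidAlgebra.single (FreeMonoid.ofList (l :: w)) 1) v =
      E (MonoidAlgebra.single (FreeMonoid.of l) 1)
        (E (MonoidAlgebra.single (FreeMonoid.ofList w) 1) v) := by
    intro l w v
    have : (MonoidAlgebra.single (FreeMonoid.ofList (l :: w)) (1 : C) : PP C g) =
        MonoidAlgebra.single (FreeMonoid.of l) 1 *
          MonoidAlgebra.single (FreeMonoid.ofList w) 1 := by
      rw [MonoidAlgebra.single_mul_single, mul_one, FreeMonoid.ofList_cons]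
    rw [this, map_mul]
    rfl
  constructor
  · intro h
    have h1 : ∀ (w : List (Fin g)) (hw : w.length < M) (i : Fin n),
        s (i, ⟨w, hw⟩) = E (MonoidAlgebra.single (FreeMonoid.ofList w) 1)
          (s (i, ⟨[], hM⟩)) := by
      intro w
      induction w with
      | nil =>
        intro hw i
        rw [hone]
      | cons l w ih =>
        intro hw i
        have hw' : w.length < M := by
          rw [List.length_cons] at hw
          omega
        have h2 := h (i, ⟨l :: w, hw⟩)
        rw [row_cons J E s i l w hw hw', if_neg (by simp), sub_eq_zero] at h2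
        rw [h2, ih hw' i, hcons]
    have h3 : ∀ i u, s (i, u) = E (MonoidAlgebra.single (FreeMonoid.ofList u.1) 1)
        (s (i, ⟨[], hM⟩)) := fun i u => h1 u.1 u.2 i
    refine ⟨h3, fun i => ?_⟩
    rw [← row_nil hM J hJ1 hJM E s h3 i, h (i, ⟨[], hM⟩), if_pos rfl]
  · rintro ⟨h1, h2⟩ ⟨i, ⟨w, hw⟩⟩
    cases w with
    | nil =>
      rw [if_pos rfl, row_nil hM J hJ1 hJM E s h1 i, h2]
    | cons l w =>
      have hw' : w.length < M := by
        rw [List.length_cons] at hw
        omega
      rw [row_cons J E s i l w hw hw', if_neg (by simp), h1 i ⟨l :: w, hw⟩, h1 i ⟨w, hw'⟩,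
        hcons, sub_self]

theorem L_apply {S : Type} [Fintype S] [DecidableEq S] (B : Fin g → Matrix S S C)
    (s : S → PP C g) (a : S) : ((1 - NN B).mulVec s) a =
      s a - ∑ j, ∑ b, Module.toAddMonoidEnd (PP C g) (PP C g)
        (MonoidAlgebra.single (FreeMonoid.of j) (B j a b)) (s b) := by
  rw [Matrix.sub_mulVec, Matrix.one_mulVec, Pi.sub_apply]
  congr 1
  rw [Finset.sum_comm]
  change ∑ b, NN B a b * s b = _
  refine Finset.sum_congr rfl fun b _ => ?_
  unfold NN
  rw [Finset.sum_mul]
  rfl

theorem unit_of_unit {M : ℕ} (hM : 0 < M) (J : Matrix (Fin n) (Fin n) (PP C g))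
    (hJ1 : ∀ i i', (J i i').coeff 1 = if i = i' then 1 else 0)
    (hJM : ∀ i i', ∀ w : List (Fin g), M < w.length → (J i i').coeff (FreeMonoid.ofList w) = 0)
    (h : IsUnit (1 - NN (BB M J))) : IsUnit J := by
  obtain ⟨U, hU⟩ := h
  have hU1 : ∀ s : Fin n × TT g M → PP C g,
      (1 - NN (BB M J)).mulVec ((U⁻¹ : _ˣ).val.mulVec s) = s := by
    intro s
    rw [Matrix.mulVec_mulVec, ← hU, Units.mul_inv, Matrix.one_mulVec]
  have hU2 : ∀ s : Fin n × TT g M → PP C g,
      (U⁻¹ : _ˣ).val.mulVec ((1 - NN (BB M J)).mulVec s) = s := by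
    intro s
    rw [Matrix.mulVec_mulVec, ← hU, Units.inv_mul, Matrix.one_mulVec]
  have hsurj : ∀ t : Fin n → PP C g, ∃ v : Fin n → PP C g, J.mulVec v = t := by
    intro t
    set s := (U⁻¹ : _ˣ).val.mulVec
      (fun a : Fin n × TT g M => if a.2 = ⟨[], hM⟩ then t a.1 else 0) with hs
    have h1 := (main hM J hJ1 hJM (Module.toAddMonoidEnd (PP C g) (PP C g)) s t).1 (by
      intro a
      rw [← L_apply, hs, hU1])
    refine ⟨fun i => s (i, ⟨[], hM⟩), ?_⟩
    funext i
    exact h1.2 i
  have hinj : ∀ v : Fin n → PP C g, J.mulVec v = 0 → v = 0 := by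
    intro v hv
    have hnil : ∀ y : PP C g, MonoidAlgebra.single (FreeMonoid.ofList []) (1 : C) * y = y := by
      intro y
      have : (MonoidAlgebra.single (FreeMonoid.ofList []) (1 : C) : PP C g) = 1 := rfl
      rw [this, one_mul]
    have h1 := (main hM J hJ1 hJM (Module.toAddMonoidEnd (PP C g) (PP C g))
      (fun a : Fin n × TT g M => MonoidAlgebra.single (FreeMonoid.ofList a.2.1) (1 : C) * v a.1)
      (0 : Fin n → PP C g)).2 ⟨by
        intro i u
        simp only
        rw [hnil]
        rfl, by
        intro i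
        simp only
        have h2 := congrFun hv i
        rw [Pi.zero_apply] at h2 ⊢
        rw [← h2]
        change _ = ∑ i', J i i' * v i'
        refine Finset.sum_congr rfl fun i' _ => ?_
        rw [hnil]
        rfl⟩
    have h3 : (1 - NN (BB M J)).mulVec (fun a : Fin n × TT g M =>
        MonoidAlgebra.single (FreeMonoid.ofList a.2.1) (1 : C) * v a.1) = 0 := by
      funext a
      rw [L_apply, h1 a]
      split_ifs
      · rfl
      · rfl
    have h4 := hU2 (fun a : Fin n × TT g M =>
      MonoidAlgebra.single (FreeMonoid.ofList a.2.1) (1 : C) * v a.1)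
    rw [h3, Matrix.mulVec_zero] at h4
    funext i
    have h5 := congrFun h4 (i, ⟨[], hM⟩)
    simp only at h5
    rw [hnil] at h5
    exact h5.symm
  choose Z hZ using fun k : Fin n => hsurj (Pi.single k 1)
  have h1 : J * Matrix.of (fun i k => Z k i) = 1 := by
    funext i k
    rw [Matrix.one_apply]
    have h2 := congrFun (hZ k) i
    change _ = (if i = k then 1 else 0)
    rw [← Pi.single_apply, ← h2]
    rfl
  have h2 : Matrix.of (fun i k => Z k i) * J = 1 := by
    rw [← sub_eq_zero]
    have h3 : J * (Matrix.of (fun i k => Z k i) * J - 1) = 0 := by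
      rw [mul_sub, ← mul_assoc, h1, one_mul, mul_one, sub_self]
    funext i k
    have h4 := hinj (fun l => (Matrix.of (fun i k => Z k i) * J - 1) l k) (by
      funext l
      exact congrFun (congrFun h3 l) k)
    exact congrFun h4 i
  exact ⟨⟨J, Matrix.of (fun i k => Z k i), h1, h2⟩, rfl⟩

end

theorem t_LIN : LIN_stmt.{u} := by
  intro C _ n g J hJ
  obtain ⟨U, hU⟩ := hJ
  set em : Matrix (Fin n) (Fin n) C →+* Matrix (Fin n) (Fin n) (PP C g) :=
    (MonoidAlgebra.singleOneRingHom (R := C) (M := FreeMonoid (Fin g))).mapMatrix with hem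
  set J' : Matrix (Fin n) (Fin n) (PP C g) := em (U⁻¹ : _ˣ).val * J with hJ'
  have hJJ : J = em U.val * J' := by
    rw [hJ', ← mul_assoc, ← map_mul, Units.mul_inv, map_one, one_mul]
  have hJ1 : ∀ i i', (J' i i').coeff 1 = if i = i' then 1 else 0 := by
    intro i i'
    have h1 : ((U⁻¹ : _ˣ).val * U.val) i i' = if i = i' then 1 else 0 := by
      rw [Units.inv_mul, Matrix.one_apply]
    rw [← h1, hJ', Matrix.mul_apply, Matrix.mul_apply, MonoidAlgebra.coeff_sum,
      Finsupp.finsetSum_apply]
    refine Finset.sum_congr rfl fun l _ => ?_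
    rw [hU]
    exact MonoidAlgebra.coeff_single_one_mul _ _ _
  set M : ℕ := (Finset.univ.sup fun i : Fin n => Finset.univ.sup fun i' : Fin n =>
    (J' i i').coeff.support.sup fun m => (FreeMonoid.toList m).length) + 1 with hMdef
  have hM : 0 < M := Nat.succ_pos _
  have hJM : ∀ i i', ∀ w : List (Fin g), M < w.length →
      (J' i i').coeff (FreeMonoid.ofList w) = 0 := by
    intro i i' w hw
    by_contra hne
    have h1 : FreeMonoid.ofList w ∈ (J' i i').coeff.support := Finsupp.mem_support_iff.2 hne
    have h2 : w.length ≤ (J' i i').coeff.support.sup fun m => (FreeMonoid.toList m).length :=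
      Finset.le_sup (f := fun m => (FreeMonoid.toList m).length) h1
    have h3 : ((J' i i').coeff.support.sup fun m => (FreeMonoid.toList m).length) ≤
        Finset.univ.sup fun i' : Fin n =>
          (J' i i').coeff.support.sup fun m => (FreeMonoid.toList m).length :=
      Finset.le_sup (f := fun i' : Fin n =>
        (J' i i').coeff.support.sup fun m => (FreeMonoid.toList m).length) (Finset.mem_univ i')
    have h4 : (Finset.univ.sup fun i' : Fin n =>
          (J' i i').coeff.support.sup fun m => (FreeMonoid.toList m).length) ≤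
        Finset.univ.sup fun i : Fin n => Finset.univ.sup fun i' : Fin n =>
          (J' i i').coeff.support.sup fun m => (FreeMonoid.toList m).length :=
      Finset.le_sup (f := fun i : Fin n => Finset.univ.sup fun i' : Fin n =>
        (J' i i').coeff.support.sup fun m => (FreeMonoid.toList m).length) (Finset.mem_univ i)
    omega
  refine ⟨Fin n × TT g M, inferInstance, inferInstance, BB M J', ?_, ?_⟩
  · intro h
    rw [hJJ]
    exact (U.isUnit.map em).mul (unit_of_unit hM J' hJ1 hJM (NN_unit _ h))
  · intro V _ E hinj s hs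
    have h1 := (main hM J' hJ1 hJM E s (0 : Fin n → V)).1 (by
      intro a
      rw [sub_eq_zero.2 (hs a)]
      split_ifs
      · rfl
      · rfl)
    obtain ⟨h2, h3⟩ := h1
    have h4 : (fun i => s (i, ⟨[], hM⟩)) = 0 := by
      apply hinj
      intro k
      have h5 : ∀ i, E (J k i) (s (i, ⟨[], hM⟩)) =
          ∑ l, E (em U.val k l) (E (J' l i) (s (i, ⟨[], hM⟩))) := by
        intro i
        have h6 : J k i = ∑ l, em U.val k l * J' l i := by
          conv_lhs => rw [hJJ, Matrix.mul_apply]
        rw [h6, E_sum]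
        refine Finset.sum_congr rfl fun l _ => ?_
        rw [map_mul]
        rfl
      rw [Finset.sum_congr rfl fun i _ => h5 i, Finset.sum_comm]
      refine Finset.sum_eq_zero fun l _ => ?_
      rw [← map_sum, h3 l]
      exact map_zero _
    funext a
    obtain ⟨i, v⟩ := a
    rw [h2 i v]
    have h5 : s (i, ⟨[], hM⟩) = 0 := congrFun h4 i
    rw [h5]
    exact map_zero _

end Pool.Agent.W371.GE
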